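import Mathlib
import Pool.Agent.Q94.BXE

set_option autoImplicit false

open Metric Filter Topology MeasureTheory Real Set

namespace Pool.Agent.Results.MP_7d928b_an.BoundedExtremal

open scoped ComplexConjugate

/-- The Bergman space `A^r` of the unit disc (area measure). -/
def Bergman (r : ℝ) (f : ℂ → ℂ) : Prop :=
  DifferentiableOn ℂ f (ball 0 1) ∧ IntegrableOn (fun z => ‖f z‖ ^ r) (ball (0 : ℂ) 1)

/-- `F` is an `A^p` extremal function for the kernel `k`: it has norm one in `A^p` and maximises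
`Re ∫ f conj k dA` over all `f` of norm one in `A^p`. -/
def IsExtremal (p : ℝ) (k F : ℂ → ℂ) : Prop :=
  Bergman p F ∧ ∫ z in ball (0 : ℂ) 1, ‖F z‖ ^ p = 1 ∧
    ∀ f : ℂ → ℂ, Bergman p f → ∫ z in ball (0 : ℂ) 1, ‖f z‖ ^ p = 1 →
      (∫ z in ball (0 : ℂ) 1, f z * conj (k z)).re ≤ (∫ z in ball (0 : ℂ) 1, F z * conj (k z)).re

/-- `BMOA`: analytic functions on the disc with bounded quadratic means (that is, in the Hardy space
`H^2`) whose radial boundary function `g`, in the angle coordinate, has mean oscillation over the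
arcs of the unit circle bounded by a constant. -/
def BMOA (k : ℂ → ℂ) : Prop :=
  DifferentiableOn ℂ k (ball 0 1) ∧
  (∃ C : ℝ, ∀ r ∈ Ioo (0 : ℝ) 1, ∫ θ in (-π)..π, ‖k (circleMap 0 r θ)‖ ^ 2 ≤ C) ∧
  ∃ g : ℝ → ℂ, (∀ᵐ θ : ℝ, Tendsto (fun r : ℝ => k (circleMap 0 r θ)) (𝓝[<] 1) (𝓝 (g θ))) ∧
    ∃ B : ℝ, ∀ α β : ℝ, α < β → β ≤ α + 2 * π → IntervalIntegrable g volume α β ∧
      (1 / (β - α)) * ∫ θ in α..β, ‖g θ - (1 / (β - α)) • ∫ φ in α..β, g φ‖ ≤ B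

/-- For every `1 < p < ∞`: if an `A^p` extremal function `F` of a nonzero kernel `k ∈ A^q` is
bounded, then `k` is in `BMOA`. -/
theorem result : ∀ p q : ℝ, 1 < p → q = p / (p - 1) → ∀ k F : ℂ → ℂ, Bergman q k →
    (∃ z ∈ ball (0 : ℂ) 1, k z ≠ 0) → IsExtremal p k F →
    (∃ M : ℝ, ∀ z ∈ ball (0 : ℂ) 1, ‖F z‖ ≤ M) → BMOA k := by
  intro p q hp hq k F hk _ hF ⟨M, hM⟩
  obtain ⟨⟨hFd, _⟩, hF1, hext⟩ := hF
  have hp1 : 0 < p - 1 := by linarith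
  have hq1 : 1 < q := by
    rw [hq, lt_div_iff₀ hp1]
    linarith
  have hM' : ∀ z ∈ ball (0 : ℂ) 1, ‖F z‖ ≤ max M 1 := fun z hz => (hM z hz).trans (le_max_left _ _)
  have hM0 : 0 < max M 1 := lt_max_of_lt_right one_pos
  obtain ⟨Λ, hΛ, hvar⟩ := Q94.BX.variation hp hq1 hk.1 hk.2 hFd hM' hF1
    (fun f h1 h2 h3 => hext f ⟨h1, h2⟩ h3)
  have hCp : 0 ≤ Q94.BX.Cp p * (max M 1) ^ (p - 1) := by
    unfold Q94.BX.Cp
    positivity
  have hC0 : 0 ≤ 2 * Λ * (Q94.BX.Cp p * (max M 1) ^ (p - 1)) := by positivity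
  have hg := fun R (hR : R ∈ Ioo (0 : ℝ) 1) (a : ℂ) (ha : ‖a‖ < 1) =>
    Q94.BX.garsia hk.1 hC0 (fun H hH x R hx hx1 hR hR1 =>
      Q94.BX.duality hp hq1 hk.1 hk.2 hFd hM0 hM' hΛ hvar hH hx hx1 hR hR1) hR.1 hR.2 ha
  obtain ⟨h1, h2⟩ := Q94.BX.bmo hk.1 hC0 hg
  exact ⟨hk.1, h1, h2⟩

end Pool.Agent.Results.MP_7d928b_an.BoundedExtremal
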